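import Pool.Agent.Y952.SR.Core

/-!
# MP_941809_an, Q1 and Q2: the rank of the differential of injective maps of second order

Stronger form of the starting results `SecondOrderSobolev` and `SecondOrderBV` (maps into `ℝⁿ`, global
classes): maps into `ℝ^d` for every `d`, with the rank of the differential in place of the Jacobian, for
the local class (continuous maps with a locally integrable weak differential of locally bounded
variation), on every open set on which the map is injective.
-/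

set_option autoImplicit false

open MeasureTheory Set Filter Topology Metric
open scoped ENNReal ContDiff
open Pool.Agent.Helper656.Sob (E pd IsTest IsWeakDeriv BVBound pd_mul pd_smooth pd_support
  pd_hasCompactSupport integrable_test_mul localize)

namespace Pool.Agent.Results.MP_941809_an.RankOfEmbeddings

/-- The local class: `G x i j` is the weak derivative `∂_j f_i` at `x`, it is locally integrable, and its
distributional derivatives are Radon measures, that is, they are bounded for the supremum norm on the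
test functions supported in any given compact subset of `Ω`. -/
structure IsWBVLoc {n d : ℕ} (Ω : Set (E n)) (f : E n → E d)
    (G : E n → Matrix (Fin d) (Fin n) ℝ) : Prop where
  G_loc : ∀ i j, LocallyIntegrableOn (fun x => G x i j) Ω
  G_weak : ∀ i j, IsWeakDeriv Ω j (fun x => f x i) (fun x => G x i j)
  second : ∀ K : Set (E n), IsCompact K → K ⊆ Ω → ∀ i j l, ∃ C : ℝ, ∀ (φ : E n → ℝ) (M : ℝ),
    IsTest Ω φ → tsupport φ ⊆ K → (∀ x, |φ x| ≤ M) → |∫ x, G x i j * pd l φ x| ≤ C * M

/-- `f ∈ W^{2,q}(Ω, ℝ^d)`: `G x i j` is the weak derivative `∂_j f_i` at `x`, `H i j l` is the weak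
derivative `∂_l ∂_j f_i`, and `f` and all these weak derivatives of order at most two are in
`L^q(Ω)`. -/
structure IsW2 {n d : ℕ} (Ω : Set (E n)) (q : ℝ≥0∞) (f : E n → E d)
    (G : E n → Matrix (Fin d) (Fin n) ℝ) (H : Fin d → Fin n → Fin n → E n → ℝ) : Prop where
  f_mem : ∀ i, MemLp (fun x => f x i) q (volume.restrict Ω)
  G_mem : ∀ i j, MemLp (fun x => G x i j) q (volume.restrict Ω)
  H_mem : ∀ i j l, MemLp (H i j l) q (volume.restrict Ω)
  G_weak : ∀ i j, IsWeakDeriv Ω j (fun x => f x i) (fun x => G x i j)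
  H_weak : ∀ i j l, IsWeakDeriv Ω l (fun x => G x i j) (H i j l)

/-- The distributional derivative `∂_l u` on `Ω` is the finite signed Radon measure `μ - ν`
(`μ`, `ν` finite positive Borel measures on `ℝⁿ`). -/
def IsMeasureDeriv {n : ℕ} (Ω : Set (E n)) (l : Fin n) (u : E n → ℝ) (μ ν : Measure (E n)) :
    Prop :=
  ∀ φ : E n → ℝ, IsTest Ω φ → ∫ x, u x * pd l φ x = - (∫ x, φ x ∂μ - ∫ x, φ x ∂ν)

/-- `f ∈ WBV(Ω, ℝ^d)`: `f ∈ W^{1,1}(Ω, ℝ^d)` with weak differential `G`, and all distributional second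
derivatives `∂_l ∂_j f_i` are finite signed Radon measures. -/
structure IsWBV {n d : ℕ} (Ω : Set (E n)) (f : E n → E d)
    (G : E n → Matrix (Fin d) (Fin n) ℝ) : Prop where
  f_int : ∀ i, IntegrableOn (fun x => f x i) Ω
  G_int : ∀ i j, IntegrableOn (fun x => G x i j) Ω
  G_weak : ∀ i j, IsWeakDeriv Ω j (fun x => f x i) (fun x => G x i j)
  second : ∀ i j l, ∃ μ ν : Measure (E n), IsFiniteMeasure μ ∧ IsFiniteMeasure ν ∧
    IsMeasureDeriv Ω l (fun x => G x i j) μ ν

theorem IsWBVLoc.mono {n d : ℕ} {Ω U : Set (E n)} {f : E n → E d}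
    {G : E n → Matrix (Fin d) (Fin n) ℝ} (h : IsWBVLoc Ω f G) (hU : U ⊆ Ω) : IsWBVLoc U f G where
  G_loc i j := (h.G_loc i j).mono_set hU
  G_weak i j φ hφ := h.G_weak i j φ ⟨hφ.1, hφ.2.1, hφ.2.2.trans hU⟩
  second K hK hKU i j l := by
    obtain ⟨C, hC⟩ := h.second K hK (hKU.trans hU) i j l
    exact ⟨C, fun φ M hφ hs hM => hC φ M ⟨hφ.1, hφ.2.1, hφ.2.2.trans hU⟩ hs hM⟩

theorem cutoff {n d : ℕ} {Ω : Set (E n)} {f : E n → E d}
    {G : E n → Matrix (Fin d) (Fin n) ℝ} (h : IsWBVLoc Ω f G) {κ : E n → ℝ} (hκ : IsTest Ω κ)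
    (i : Fin d) (j l : Fin n) : ∃ C, 0 ≤ C ∧ BVBound univ l (fun x => κ x * G x i j) C := by
  obtain ⟨C0, hC0⟩ := h.second (tsupport κ) hκ.2.1 hκ.2.2 i j l
  have hu := h.G_loc i j
  obtain ⟨T, hT⟩ : ∃ T, ∀ x, |κ x| ≤ T := by
    obtain ⟨T, hT⟩ := hκ.2.1.exists_bound_of_continuous hκ.1.continuous
    exact ⟨T, fun z => by simpa using hT z⟩
  have hT0 : 0 ≤ T := (abs_nonneg _).trans (hT 0)
  have hup : Integrable (fun x => pd l κ x * G x i j) :=
    integrable_test_mul (pd_smooth l hκ.1).continuous (pd_hasCompactSupport l hκ.2.1)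
      ((pd_support l κ).trans hκ.2.2) hu
  refine ⟨|C0| * T + ∫ x, |pd l κ x * G x i j|, ?_, ?_⟩
  · have : 0 ≤ ∫ x, |pd l κ x * G x i j| := integral_nonneg fun x => abs_nonneg _
    positivity
  intro φ M hφ hM
  have hM0 : 0 ≤ M := (abs_nonneg _).trans (hM 0)
  have hs : tsupport (fun x => κ x * φ x) ⊆ tsupport κ := tsupport_mul_subset_left
  have hκφ : IsTest Ω (fun x => κ x * φ x) :=
    ⟨hκ.1.mul hφ.1, hκ.2.1.mul_right, hs.trans hκ.2.2⟩
  have hpd : ∀ x, pd l (fun x => κ x * φ x) x = κ x * pd l φ x + φ x * pd l κ x := fun x =>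
    pd_mul l (hκ.1.differentiable (by simp) x) (hφ.1.differentiable (by simp) x)
  have hi1 : Integrable (fun x => G x i j * pd l (fun x => κ x * φ x) x) := by
    have := integrable_test_mul (pd_smooth l hκφ.1).continuous (pd_hasCompactSupport l hκφ.2.1)
      ((pd_support l _).trans hκφ.2.2) hu
    exact this.congr (Filter.Eventually.of_forall fun x => mul_comm _ _)
  have hi2 : Integrable (fun x => φ x * (pd l κ x * G x i j)) :=
    hup.bdd_mul hφ.1.continuous.aestronglyMeasurable
      (Filter.Eventually.of_forall fun x => by simpa using hM x)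
  have e1 : ∫ x, (κ x * G x i j) * pd l φ x =
      (∫ x, G x i j * pd l (fun x => κ x * φ x) x) - ∫ x, φ x * (pd l κ x * G x i j) := by
    rw [← integral_sub hi1 hi2]
    refine integral_congr_ae (Filter.Eventually.of_forall fun x => ?_)
    simp only [hpd]; ring
  have hb : ∀ x, |κ x * φ x| ≤ T * M := fun x => by
    rw [abs_mul]
    exact mul_le_mul (hT x) (hM x) (abs_nonneg _) hT0
  have h1 : |∫ x, G x i j * pd l (fun x => κ x * φ x) x| ≤ |C0| * (T * M) :=
    (hC0 _ _ hκφ hs hb).trans (mul_le_mul_of_nonneg_right (le_abs_self _) (by positivity))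
  have h2 : |∫ x, φ x * (pd l κ x * G x i j)| ≤ (∫ x, |pd l κ x * G x i j|) * M := by
    refine (abs_integral_le_integral_abs).trans ?_
    rw [← integral_mul_const]
    refine integral_mono_of_nonneg (Filter.Eventually.of_forall fun x => abs_nonneg _)
      (hup.abs.mul_const M) (Filter.Eventually.of_forall fun x => ?_)
    simp only
    rw [abs_mul, mul_comm]
    exact mul_le_mul_of_nonneg_left (hM x) (abs_nonneg _)
  rw [e1]
  refine (abs_sub _ _).trans ((add_le_add h1 h2).trans (le_of_eq (by ring)))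

theorem rank_pos {n d : ℕ} {Ω : Set (E n)} (hΩ : IsOpen Ω) (hne : Ω.Nonempty) (f : E n → E d)
    (hf : ContinuousOn f Ω) (hinj : InjOn f Ω) (G : E n → Matrix (Fin d) (Fin n) ℝ)
    (hW : IsWBVLoc Ω f G) : 0 < volume {x | x ∈ Ω ∧ (G x).rank = n} := by
  refine Y952.SR.main hΩ hne f hf hinj G hW.G_loc hW.G_weak ?_
  intro κ hκ
  have hex : ∀ i j l, ∃ C, 0 ≤ C ∧ BVBound univ l (fun x => κ x * G x i j) C :=
    fun i j l => cutoff hW hκ i j l
  choose C hC0 hC using hex
  refine ⟨∑ i, ∑ j, ∑ l, C i j l, ?_⟩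
  intro i j l φ M hφ hM
  have hM0 : 0 ≤ M := (abs_nonneg _).trans (hM 0)
  refine (hC i j l φ M hφ hM).trans (mul_le_mul_of_nonneg_right ?_ hM0)
  calc C i j l ≤ ∑ l, C i j l :=
        Finset.single_le_sum (f := fun l => C i j l) (fun l _ => hC0 i j l) (Finset.mem_univ l)
    _ ≤ ∑ j, ∑ l, C i j l :=
        Finset.single_le_sum (f := fun j => ∑ l, C i j l)
          (fun j _ => Finset.sum_nonneg fun l _ => hC0 i j l) (Finset.mem_univ j)
    _ ≤ ∑ i, ∑ j, ∑ l, C i j l :=
        Finset.single_le_sum (f := fun i => ∑ j, ∑ l, C i j l)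
          (fun i _ => Finset.sum_nonneg fun j _ => Finset.sum_nonneg fun l _ => hC0 i j l)
          (Finset.mem_univ i)

theorem IsWBV.loc {n d : ℕ} {Ω : Set (E n)} {f : E n → E d}
    {G : E n → Matrix (Fin d) (Fin n) ℝ} (h : IsWBV Ω f G) : IsWBVLoc Ω f G where
  G_loc i j := (h.G_int i j).locallyIntegrableOn
  G_weak := h.G_weak
  second K _ _ i j l := by
    obtain ⟨μ, ν, hμ, hν, hm⟩ := h.second i j l
    refine ⟨μ.real univ + ν.real univ, fun φ M hφ _ hM => ?_⟩
    rw [hm φ hφ, abs_neg]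
    have a1 : |∫ x, φ x ∂μ| ≤ M * μ.real univ := by
      have := norm_integral_le_of_norm_le_const (μ := μ) (f := φ) (C := M)
        (Filter.Eventually.of_forall fun x => by simpa using hM x)
      simpa using this
    have a2 : |∫ x, φ x ∂ν| ≤ M * ν.real univ := by
      have := norm_integral_le_of_norm_le_const (μ := ν) (f := φ) (C := M)
        (Filter.Eventually.of_forall fun x => by simpa using hM x)
      simpa using this
    exact (abs_sub _ _).trans ((add_le_add a1 a2).trans (le_of_eq (by ring)))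

theorem locInt_of_memLp {n : ℕ} {Ω : Set (E n)} {q : ℝ≥0∞} (hq : 1 ≤ q) {u : E n → ℝ}
    (h : MemLp u q (volume.restrict Ω)) : LocallyIntegrableOn u Ω :=
  locallyIntegrableOn_of_locallyIntegrable_restrict (h.locallyIntegrable hq)

theorem IsW2.loc {n d : ℕ} {Ω : Set (E n)} {q : ℝ≥0∞} (hq : 1 ≤ q) {f : E n → E d}
    {G : E n → Matrix (Fin d) (Fin n) ℝ} {H : Fin d → Fin n → Fin n → E n → ℝ}
    (h : IsW2 Ω q f G H) : IsWBVLoc Ω f G where
  G_loc i j := locInt_of_memLp hq (h.G_mem i j)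
  G_weak := h.G_weak
  second K hK hKΩ i j l := by
    have hH : IntegrableOn (H i j l) K :=
      (locInt_of_memLp hq (h.H_mem i j l)).integrableOn_compact_subset hKΩ hK
    refine ⟨∫ x in K, |H i j l x|, fun φ M hφ hs hM => ?_⟩
    have hM0 : 0 ≤ M := (abs_nonneg _).trans (hM 0)
    rw [h.H_weak i j l φ hφ, abs_neg]
    have e1 : ∫ x, H i j l x * φ x = ∫ x in K, H i j l x * φ x := by
      rw [setIntegral_eq_integral_of_forall_compl_eq_zero]
      intro x hx
      rw [image_eq_zero_of_notMem_tsupport (fun hx' => hx (hs hx')), mul_zero]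
    rw [e1]
    refine (abs_integral_le_integral_abs).trans ?_
    rw [← integral_mul_const]
    refine integral_mono_of_nonneg (Filter.Eventually.of_forall fun x => abs_nonneg _)
      (hH.abs.mul_const M) (Filter.Eventually.of_forall fun x => ?_)
    simp only
    rw [abs_mul]
    exact mul_le_mul_of_nonneg_left (hM x) (abs_nonneg _)

theorem det_ne_of_rank {n : ℕ} (A : Matrix (Fin n) (Fin n) ℝ) (h : A.rank = n) : A.det ≠ 0 := by
  have h1 : LinearMap.range A.mulVecLin = ⊤ := by
    apply Submodule.eq_top_of_finrank_eq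
    have : Module.finrank ℝ (LinearMap.range A.mulVecLin) = A.rank := rfl
    rw [this, h]
    simp
  have h2 : Function.Surjective A.mulVec := by
    intro v
    have : v ∈ LinearMap.range A.mulVecLin := by rw [h1]; exact Submodule.mem_top
    obtain ⟨u, hu⟩ := this
    exact ⟨u, hu⟩
  exact ((Matrix.isUnit_iff_isUnit_det _).1 (Matrix.mulVec_surjective_iff_isUnit.1 h2)).ne_zero

/-- (1) Let `f` be a continuous map from an open set `Ω ⊆ ℝⁿ` to `ℝ^d` (`n`, `d` arbitrary) with a locally
integrable weak differential `G` whose distributional derivatives are Radon measures. If `f` is injective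
on the nonempty open set `U ⊆ Ω`, then the differential has rank `n` on a subset of `U` of positive
measure. (2) The classes `W^{2,q}(Ω, ℝ^d)`, `1 ≤ q ≤ ∞`, and `WBV(Ω, ℝ^d)` are contained in this local
class. (3) In particular (`d = n`) every continuous injective map in `W^{2,q}(Ω, ℝⁿ)` or in `WBV(Ω, ℝⁿ)`,
hence every homeomorphism, has nonzero Jacobian on a set of positive measure. -/
theorem result :
    (∀ (n d : ℕ) (Ω : Set (E n)) (f : E n → E d) (G : E n → Matrix (Fin d) (Fin n) ℝ),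
      ContinuousOn f Ω → IsWBVLoc Ω f G →
      ∀ U : Set (E n), U ⊆ Ω → IsOpen U → U.Nonempty → InjOn f U →
        0 < volume {x | x ∈ U ∧ (G x).rank = n}) ∧
    (∀ (n d : ℕ) (Ω : Set (E n)) (f : E n → E d) (G : E n → Matrix (Fin d) (Fin n) ℝ),
      (∀ (q : ℝ≥0∞) (H : Fin d → Fin n → Fin n → E n → ℝ), 1 ≤ q → IsW2 Ω q f G H →
        IsWBVLoc Ω f G) ∧
      (IsWBV Ω f G → IsWBVLoc Ω f G)) ∧
    ∀ (n : ℕ) (Ω : Set (E n)) (f : E n → E n) (G : E n → Matrix (Fin n) (Fin n) ℝ),
      IsOpen Ω → Ω.Nonempty → ContinuousOn f Ω → InjOn f Ω →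
      (∃ (q : ℝ≥0∞) (H : Fin n → Fin n → Fin n → E n → ℝ), 1 ≤ q ∧ IsW2 Ω q f G H) ∨
        IsWBV Ω f G →
      0 < volume {x | x ∈ Ω ∧ (G x).det ≠ 0} := by
  refine ⟨?_, ?_, ?_⟩
  · intro n d Ω f G hf hW U hU hUo hUn hinj
    exact rank_pos hUo hUn f (hf.mono hU) hinj G (hW.mono hU)
  · intro n d Ω f G
    exact ⟨fun q H hq h => h.loc hq, fun h => h.loc⟩
  · intro n Ω f G hΩ hne hf hinj h
    have hW : IsWBVLoc Ω f G := by
      rcases h with ⟨q, H, hq, h⟩ | h
      · exact h.loc hq
      · exact h.loc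
    refine (rank_pos hΩ hne f hf hinj G hW).trans_le (measure_mono ?_)
    intro x hx
    exact ⟨hx.1, det_ne_of_rank _ hx.2⟩

end Pool.Agent.Results.MP_941809_an.RankOfEmbeddings
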